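import Mathlib

/-!
The number of isomorphism types does not control the complexity of isomorphism testing.
-/

set_option autoImplicit false

namespace Pool.Agent.Results.MP_28ce77_lc.FewTypesNoBound

open FirstOrder

/-- The relation symbols of the signature: a single unary symbol. -/
inductive Rel : ℕ → Type
  | P : Rel 1

/-- The signature with one unary relation symbol and no function or constant symbols. -/
def sig : Language := ⟨fun _ => Empty, Rel⟩

/-- The members with universe `Fin n` of the class of the finite models of `φ`. -/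
def Member (φ : sig.Sentence) (n : ℕ) : Type :=
  {S : sig.Structure (Fin n) // @Language.Sentence.Realize sig (Fin n) S φ}

/-- Isomorphism of structures. -/
def Iso {φ : sig.Sentence} {n : ℕ} (A B : Member φ n) : Prop :=
  Nonempty (@Language.Equiv sig (Fin n) (Fin n) A.1 B.1)

/-- Isomorphism as an equivalence relation. -/
def isoSetoid (φ : sig.Sentence) (n : ℕ) : Setoid (Member φ n) where
  r := Iso
  iseqv := by
    refine ⟨fun A => ?_, fun {A B} h => ?_, fun {A B C} h h' => ?_⟩
    · exact ⟨@Language.Equiv.refl sig (Fin n) A.1⟩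
    · obtain ⟨f⟩ := h
      exact ⟨@Language.Equiv.symm sig (Fin n) (Fin n) A.1 B.1 f⟩
    · obtain ⟨f⟩ := h
      obtain ⟨g⟩ := h'
      exact ⟨@Language.Equiv.comp sig (Fin n) (Fin n) A.1 B.1 (Fin n) C.1 g f⟩

/-- The number of isomorphism types of `n`-element members of the class of `φ`. -/
noncomputable def numTypes (φ : sig.Sentence) (n : ℕ) : ℕ :=
  Nat.card (Quotient (isoSetoid φ n))

/-- The symbols used to write inputs: two digits and a separator. -/
inductive Sym : Type
  | zero
  | one
  | sep
deriving DecidableEq

/-- Deterministic Turing machines with `k + 1` tapes, infinite in both directions, a finite tape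
alphabet `Γ` and a finite set `Q` of states.  The input stands on tape number `0`, translated into
the tape alphabet by `inp`.  In one step the machine reads the symbols under its heads; it stops, or
it changes its state, rewrites the symbols read, and moves each head by `-1`, `0` or `1`. -/
structure TM where
  k : ℕ
  Γ : Type
  Q : Type
  finΓ : Finite Γ
  finQ : Finite Q
  blank : Γ
  inp : Sym → Γ
  start : Q
  step : Q → (Fin (k + 1) → Γ) → Option (Q × (Fin (k + 1) → Γ × SignType))
  ans : Q → Bool

namespace TM

/-- Configurations. -/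
@[ext]
structure Cfg (M : TM) where
  q : M.Q
  head : Fin (M.k + 1) → ℤ
  tape : Fin (M.k + 1) → ℤ → M.Γ

/-- The next configuration, `none` when the machine stops. -/
def next (M : TM) (c : M.Cfg) : Option M.Cfg :=
  (M.step c.q (fun i => c.tape i (c.head i))).map fun a =>
    ⟨a.1, fun i => c.head i + (a.2 i).2,
      fun i => Function.update (c.tape i) (c.head i) (a.2 i).1⟩

/-- The initial configuration on the input `w`: the symbols of `w` stand in the cells
`0, 1, …` of tape `0`, all the other cells are blank, and all heads are at cell `0`. -/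
def init (M : TM) (w : List Sym) : M.Cfg :=
  ⟨M.start, fun _ => 0, fun i z =>
    if i = 0 ∧ 0 ≤ z then ((w[z.toNat]?).map M.inp).getD M.blank else M.blank⟩

/-- The configuration after `t` steps (a stopped machine stays where it is). -/
def after (M : TM) (w : List Sym) : ℕ → M.Cfg
  | 0 => M.init w
  | t + 1 => (M.next (M.after w t)).getD (M.after w t)

/-- The machine has stopped after `t` steps. -/
def Stopped (M : TM) (w : List Sym) (t : ℕ) : Prop := M.next (M.after w t) = none

/-- The number of steps of `M` on the input `w`. -/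
noncomputable def time (M : TM) (w : List Sym) : ℕ := sInf {t | M.Stopped w t}

end TM

open Classical in
/-- The table of the relation of `A`, a word of length `n`. -/
noncomputable def table {φ : sig.Sentence} {n : ℕ} (A : Member φ n) : List Sym :=
  List.ofFn fun i : Fin n => if A.1.RelMap Rel.P ![i] then Sym.one else Sym.zero

/-- The input for the pair `A`, `B`: the two tables, with a separator between them. -/
noncomputable def code {φ : sig.Sentence} {n : ℕ} (A B : Member φ n) : List Sym :=
  table A ++ Sym.sep :: table B

/-- `M` is an isomorphism testing algorithm for the class of the finite models of `φ`: on every pair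
of members with the same universe `Fin n` it stops, and its answer is `true` if and only if the two
members are isomorphic. -/
def IsTest (φ : sig.Sentence) (M : TM) : Prop :=
  ∀ (n : ℕ) (A B : Member φ n), ∃ t, M.Stopped (code A B) t ∧
    (M.ans (M.after (code A B) t).q = true ↔ Iso A B)

/-- The largest number of steps of `M` on pairs of `n`-element members. -/
noncomputable def worst (φ : sig.Sentence) (M : TM) (n : ℕ) : ℕ :=
  ⨆ p : Member φ n × Member φ n, M.time (code p.1 p.2)

/-- The sentence of the class `J`: at most one element satisfies `P`. -/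
def phiJ : sig.Sentence :=
  ∀' ∀' ((Language.Relations.boundedFormula₁ (L := sig) (Rel.P : sig.Relations 1) (&0)) ⟹
    ((Language.Relations.boundedFormula₁ (L := sig) (Rel.P : sig.Relations 1) (&1)) ⟹
      ((&0 : sig.Term (Empty ⊕ Fin 2)) =' (&1))))

/-- The sentence of the class `K`: no element satisfies `P`. -/
def phiK : sig.Sentence :=
  ∀' ∼(Language.Relations.boundedFormula₁ (L := sig) (Rel.P : sig.Relations 1) (&0))

theorem realize_phiK {n : ℕ} (S : sig.Structure (Fin n)) :
    @Language.Sentence.Realize sig (Fin n) S phiK ↔ ∀ i, ¬ S.RelMap Rel.P ![i] := by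
  let _ := S
  exact forall_congr' fun _ => not_congr Language.BoundedFormula.realize_rel₁

theorem realize_phiJ {n : ℕ} (S : sig.Structure (Fin n)) :
    @Language.Sentence.Realize sig (Fin n) S phiJ ↔
      ∀ i j, S.RelMap Rel.P ![i] → S.RelMap Rel.P ![j] → i = j := by
  let _ := S
  exact forall_congr' fun _ => forall_congr' fun _ =>
    imp_congr Language.BoundedFormula.realize_rel₁ (imp_congr
      Language.BoundedFormula.realize_rel₁ Iff.rfl)

/-- The structure with a given relation. -/
@[reducible] def mk {n : ℕ} (p : Fin n → Prop) : sig.Structure (Fin n) where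
  funMap := fun f => nomatch f
  RelMap := fun {m} r v => match m, r, v with
    | 1, Rel.P, v => p (v 0)

theorem mk_rel {n : ℕ} (p : Fin n → Prop) (v : Fin 1 → Fin n) :
    (mk p).RelMap Rel.P v = p (v 0) := rfl

theorem eq_mk {n : ℕ} (S : sig.Structure (Fin n)) : S = mk (fun i => S.RelMap Rel.P ![i]) := by
  have h1 : ∀ v : Fin 1 → Fin n, ![v 0] = v := by
    intro v
    funext i
    fin_cases i
    rfl
  refine Language.Structure.ext ?_ ?_
  · funext m f
    exact nomatch f
  · funext m r v
    cases r
    simp only [mk_rel, h1]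

instance {φ : sig.Sentence} {n : ℕ} : Finite (Member φ n) := by
  refine Finite.of_injective (β := Fin n → Prop)
    (fun A i => A.1.RelMap Rel.P ![i]) fun A B h => Subtype.ext ?_
  rw [eq_mk A.1, eq_mk B.1]
  have h' : (fun i => A.1.RelMap Rel.P ![i]) = fun i => B.1.RelMap Rel.P ![i] := h
  rw [h']

theorem iso_of_perm {φ : sig.Sentence} {n : ℕ} (A B : Member φ n) (e : Equiv.Perm (Fin n))
    (h : ∀ i, A.1.RelMap Rel.P ![i] ↔ B.1.RelMap Rel.P ![e i]) : Iso A B := by
  refine ⟨@Language.Equiv.mk sig (Fin n) (Fin n) A.1 B.1 e ?_ ?_⟩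
  · intro m f
    exact nomatch f
  · intro m r v
    cases r
    have h1 : ∀ v : Fin 1 → Fin n, ![v 0] = v := by
      intro v
      funext i
      fin_cases i
      rfl
    have h2 := h (v 0)
    rw [h1 v] at h2
    have h3 : ![e (v 0)] = e ∘ v := by
      funext i
      fin_cases i
      rfl
    rw [h3] at h2
    exact h2.symm

theorem perm_of_iso {φ : sig.Sentence} {n : ℕ} {A B : Member φ n} (h : Iso A B) :
    ∃ e : Equiv.Perm (Fin n), ∀ i, A.1.RelMap Rel.P ![i] ↔ B.1.RelMap Rel.P ![e i] := by
  obtain ⟨f⟩ := h
  let e := @Language.Equiv.toEquiv sig (Fin n) (Fin n) A.1 B.1 f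
  refine ⟨e, fun i => ?_⟩
  have h1 := @Language.Equiv.map_rel' sig (Fin n) (Fin n) A.1 B.1 f 1 (Rel.P : sig.Relations 1) ![i]
  have h3 : ![e i] = e ∘ ![i] := by
    funext i
    fin_cases i
    rfl
  rw [h3]
  exact h1.symm

theorem iso_iff_J {n : ℕ} (A B : Member phiJ n) :
    Iso A B ↔ ((∃ i, A.1.RelMap Rel.P ![i]) ↔ ∃ i, B.1.RelMap Rel.P ![i]) := by
  constructor
  · intro h
    obtain ⟨e, he⟩ := perm_of_iso h
    constructor
    · rintro ⟨i, hi⟩
      exact ⟨e i, (he i).1 hi⟩
    · rintro ⟨i, hi⟩
      refine ⟨e.symm i, (he _).2 ?_⟩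
      rwa [Equiv.apply_symm_apply]
  · intro h
    have hA := (realize_phiJ A.1).1 A.2
    have hB := (realize_phiJ B.1).1 B.2
    by_cases hx : ∃ i, A.1.RelMap Rel.P ![i]
    · obtain ⟨i, hi⟩ := hx
      obtain ⟨j, hj⟩ := h.1 ⟨i, hi⟩
      refine iso_of_perm A B (Equiv.swap i j) fun l => ?_
      constructor
      · intro hl
        rw [hA l i hl hi, Equiv.swap_apply_left]
        exact hj
      · intro hl
        have := hB _ _ hl hj
        have h2 : l = i := by
          have h3 := congrArg (Equiv.swap i j) this
          rwa [Equiv.swap_apply_self, Equiv.swap_apply_right] at h3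
        rwa [h2]
    · have hy : ¬ ∃ i, B.1.RelMap Rel.P ![i] := fun h' => hx (h.2 h')
      refine iso_of_perm A B 1 fun l => ?_
      exact ⟨fun hl => (hx ⟨l, hl⟩).elim, fun hl => (hy ⟨_, hl⟩).elim⟩

theorem iso_K {n : ℕ} (A B : Member phiK n) : Iso A B := by
  refine iso_of_perm A B 1 fun l => ?_
  have hA := (realize_phiK A.1).1 A.2
  have hB := (realize_phiK B.1).1 B.2
  exact ⟨fun hl => (hA _ hl).elim, fun hl => (hB _ hl).elim⟩

theorem numTypes_J (n : ℕ) : numTypes phiJ n ≤ 2 := by
  let f : Quotient (isoSetoid phiJ n) → Prop :=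
    Quotient.lift (fun A : Member phiJ n => ∃ i, A.1.RelMap Rel.P ![i])
      (fun A B h => propext ((iso_iff_J A B).1 h))
  have hf : Function.Injective f := by
    intro a b
    induction a using Quotient.ind
    induction b using Quotient.ind
    intro h
    exact Quotient.sound ((iso_iff_J _ _).2 (iff_of_eq h))
  calc numTypes phiJ n ≤ Nat.card Prop := Nat.card_le_card_of_injective f hf
    _ = 2 := by simp

theorem numTypes_K (n : ℕ) : 1 ≤ numTypes phiK n := by
  have : Nonempty (Member phiK n) :=
    ⟨⟨mk fun _ => False, (realize_phiK _).2 fun i h => h⟩⟩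
  have : Finite (Quotient (isoSetoid phiK n)) := Quotient.finite _
  have : Nonempty (Quotient (isoSetoid phiK n)) :=
    ⟨Quotient.mk _ ⟨mk fun _ => False, (realize_phiK _).2 fun i h => h⟩⟩
  exact Nat.card_pos

/-- The machine which stops at once with the answer `true`. -/
def yes : TM where
  k := 0
  Γ := Unit
  Q := Unit
  finΓ := inferInstance
  finQ := inferInstance
  blank := ()
  inp := fun _ => ()
  start := ()
  step := fun _ _ => none
  ans := fun _ => true

theorem yes_test : IsTest phiK yes := by
  intro n A B
  refine ⟨0, rfl, ?_⟩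
  exact ⟨fun _ => iso_K A B, fun _ => rfl⟩

theorem yes_time (w : List Sym) : yes.time w = 0 := by
  refine Nat.sInf_eq_zero.2 (Or.inl ?_)
  exact (rfl : yes.next (yes.after w 0) = none)

theorem yes_worst (n : ℕ) : worst phiK yes n = 0 := by
  unfold worst
  simp only [yes_time]
  have : Nonempty (Member phiK n) :=
    ⟨⟨mk fun _ => False, (realize_phiK _).2 fun i h => h⟩⟩
  exact ciSup_const

namespace TM

variable (M : TM)

theorem after_of_stopped {w : List Sym} {T : ℕ} (h : M.Stopped w T) :
    ∀ d, M.after w (T + d) = M.after w T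
  | 0 => rfl
  | d + 1 => by
    have h1 := after_of_stopped h d
    have h2 : M.after w (T + (d + 1)) = (M.next (M.after w (T + d))).getD (M.after w (T + d)) := rfl
    rw [h2, h1, show M.next (M.after w T) = none from h]
    rfl

/-- Two stopping times give the same configuration. -/
theorem after_unique {w : List Sym} {T T' : ℕ} (h : M.Stopped w T) (h' : M.Stopped w T') :
    M.after w T = M.after w T' := by
  rcases le_total T T' with hle | hle
  · obtain ⟨d, rfl⟩ := Nat.exists_eq_add_of_le hle
    exact (M.after_of_stopped h d).symm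
  · obtain ⟨d, rfl⟩ := Nat.exists_eq_add_of_le hle
    exact M.after_of_stopped h' d

/-- The configurations differ at most in the cell `N` of tape `0`, and the head there has not
moved beyond cell `s`. -/
def Near (N s : ℕ) (c c' : M.Cfg) : Prop :=
  c.q = c'.q ∧ c.head = c'.head ∧ c.head 0 ≤ s ∧
    ∀ (i : Fin (M.k + 1)) (z : ℤ), (i ≠ 0 ∨ z ≠ (N : ℤ)) → c.tape i z = c'.tape i z

theorem Near.step_eq {N s : ℕ} {c c' : M.Cfg} (h : M.Near N s c c') (hs : s < N) :
    M.step c.q (fun i => c.tape i (c.head i)) = M.step c'.q (fun i => c'.tape i (c'.head i)) := by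
  obtain ⟨h1, h2, h3, h4⟩ := h
  rw [h1]
  congr 1
  funext i
  rw [← h2]
  apply h4
  by_cases hi : i = 0
  · right
    rw [hi]
    omega
  · exact Or.inl hi

theorem Near.next_none {N s : ℕ} {c c' : M.Cfg} (h : M.Near N s c c') (hs : s < N) :
    M.next c = none ↔ M.next c' = none := by
  unfold next
  rw [h.step_eq M hs]
  simp

theorem Near.next {N s : ℕ} {c c' : M.Cfg} (h : M.Near N s c c') (hs : s < N) :
    M.Near N (s + 1) ((M.next c).getD c) ((M.next c').getD c') := by
  have h0 := h.step_eq M hs
  unfold TM.next
  rw [h0]
  obtain ⟨h1, h2, h3, h4⟩ := h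
  rcases hc : M.step c'.q (fun i => c'.tape i (c'.head i)) with _ | a
  · simp only [Option.map_none, Option.getD_none]
    exact ⟨h1, h2, by push_cast; omega, h4⟩
  · simp only [Option.map_some, Option.getD_some]
    refine ⟨rfl, ?_, ?_, ?_⟩
    · simp only [h2]
    · have h5 : ∀ x : SignType, (x : ℤ) ≤ 1 := by decide
      have h6 := h5 (a.2 0).2
      push_cast
      change c.head 0 + ((a.2 0).2 : ℤ) ≤ _
      omega
    · intro i z hz
      simp only [h2]
      by_cases hzz : z = c'.head i
      · subst hzz
        simp
      · simp only [Function.update_of_ne hzz]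
        exact h4 i z hz

theorem near_after {N : ℕ} {w w' : List Sym} (h : ∀ z ≠ N, w[z]? = w'[z]?) :
    ∀ s ≤ N, M.Near N s (M.after w s) (M.after w' s)
  | 0, _ => by
    refine ⟨rfl, rfl, le_refl _, fun i z hz => ?_⟩
    simp only [after, init]
    by_cases hi : i = 0 ∧ 0 ≤ z
    · rw [if_pos hi, if_pos hi, h z.toNat]
      rcases hz with hz | hz
      · exact (hz hi.1).elim
      · omega
    · rw [if_neg hi, if_neg hi]
  | s + 1, hs => (near_after h s (by omega)).next M (by omega)

end TM

theorem stopped_time {M : TM} {w : List Sym} {T : ℕ} (h : M.Stopped w T) :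
    M.Stopped w (M.time w) := Nat.sInf_mem (s := {t | M.Stopped w t}) ⟨T, h⟩

theorem le_worst (φ : sig.Sentence) (M : TM) {n : ℕ} (A B : Member φ n) :
    M.time (code A B) ≤ worst φ M n :=
  le_ciSup (f := fun p : Member φ n × Member φ n => M.time (code p.1 p.2))
    (Set.finite_range _).bddAbove (A, B)

theorem length_table {φ : sig.Sentence} {n : ℕ} (A : Member φ n) : (table A).length = n := by
  simp [table]

/-- The member of `J` with empty relation. -/
def memE (n : ℕ) : Member phiJ n := ⟨mk fun _ => False, (realize_phiJ _).2 fun _ _ h => h.elim⟩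

/-- The member of `J` where exactly the last element satisfies the relation. -/
def memF (n : ℕ) : Member phiJ (n + 1) :=
  ⟨mk fun i => i = Fin.last n, (realize_phiJ _).2 fun _ _ h h' => h.trans h'.symm⟩

theorem code_agree (n : ℕ) (z : ℕ) (hz : z ≠ 2 * n + 2) :
    (code (memE (n + 1)) (memE (n + 1)))[z]? = (code (memE (n + 1)) (memF n))[z]? := by
  unfold code
  by_cases h1 : z < n + 1
  · rw [List.getElem?_append_left (by rw [length_table]; exact h1),
      List.getElem?_append_left (by rw [length_table]; exact h1)]
  · rw [List.getElem?_append_right (by rw [length_table]; omega),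
      List.getElem?_append_right (by rw [length_table]; omega), length_table]
    obtain ⟨d, hd⟩ : ∃ d, z = n + 1 + d := ⟨z - (n + 1), by omega⟩
    subst hd
    rw [Nat.add_sub_cancel_left]
    rcases d with _ | d
    · rfl
    · rw [List.getElem?_cons_succ, List.getElem?_cons_succ]
      unfold table
      rw [List.getElem?_ofFn, List.getElem?_ofFn]
      by_cases hd : d < n + 1
      · rw [dif_pos hd, dif_pos hd]
        congr 1
        have h3 : (⟨d, hd⟩ : Fin (n + 1)) ≠ Fin.last n := by
          intro h
          have := congrArg Fin.val h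
          simp only [Fin.val_last] at this
          omega
        have h4 : ¬ (memF n).1.RelMap Rel.P ![⟨d, hd⟩] := h3
        have h5 : ¬ (memE (n + 1)).1.RelMap Rel.P ![⟨d, hd⟩] := fun h => h
        rw [if_neg h4, if_neg h5]
      · rw [dif_neg hd, dif_neg hd]

theorem lower {M : TM} (hM : IsTest phiJ M) (n : ℕ) : 2 * n ≤ worst phiJ M n := by
  rcases n with _ | n
  · exact Nat.zero_le _
  obtain ⟨t, ht, hans⟩ := hM (n + 1) (memE (n + 1)) (memE (n + 1))
  obtain ⟨t', ht', hans'⟩ := hM (n + 1) (memE (n + 1)) (memF n)
  refine le_trans ?_ (le_worst phiJ M (memE (n + 1)) (memE (n + 1)))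
  by_contra hlt
  push Not at hlt
  set T := M.time (code (memE (n + 1)) (memE (n + 1))) with hT
  have h1 : M.Stopped (code (memE (n + 1)) (memE (n + 1))) T := stopped_time ht
  have h2 := M.near_after (N := 2 * n + 2) (fun z hz => code_agree n z hz) T (by omega)
  have h3 : M.Stopped (code (memE (n + 1)) (memF n)) T := (h2.next_none M (by omega)).1 h1
  have h4 : Iso (memE (n + 1)) (memE (n + 1)) := (isoSetoid phiJ (n + 1)).refl _
  have h5 : ¬ Iso (memE (n + 1)) (memF n) := by
    rw [iso_iff_J]
    intro h
    obtain ⟨i, hi⟩ := h.2 ⟨Fin.last n, rfl⟩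
    exact hi
  apply h5
  rw [← hans', M.after_unique ht' h3, ← h2.1, M.after_unique h1 ht, hans]
  exact h4

/-- The effect of a symbol on the state of `scan`. -/
def eff (q : Bool × Bool × Bool) : Sym → Bool × Bool × Bool
  | Sym.zero => q
  | Sym.sep => (true, q.2.1, q.2.2)
  | Sym.one => (q.1, (q.2.1 || !q.1), (q.2.2 || q.1))

/-- The machine which reads the whole input and compares whether the two tables contain a `1`. -/
def scan : TM where
  k := 0
  Γ := Option Sym
  Q := Bool × Bool × Bool
  finΓ := by
    have : Finite Sym := Finite.of_injective (β := Fin 3)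
      (fun s => match s with | .zero => 0 | .one => 1 | .sep => 2) (by
        intro a b h
        cases a <;> cases b <;> first | rfl | (simp at h))
    infer_instance
  finQ := inferInstance
  blank := none
  inp := some
  start := (false, false, false)
  step := fun q a => (a 0).map fun x => (eff q x, fun i => (a i, 1))
  ans := fun q => q.2.1 == q.2.2

theorem next_eq (M : TM) (c : M.Cfg) (q' : M.Q)
    (h : M.step c.q (fun i => c.tape i (c.head i)) =
      some (q', fun i => (c.tape i (c.head i), 1))) :
    M.next c = some ⟨q', fun i => c.head i + 1, c.tape⟩ := by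
  unfold TM.next
  rw [h]
  simp

theorem scan_next (q : Bool × Bool × Bool) (h : ℤ) (tp : Fin 1 → ℤ → Option Sym) (x : Sym)
    (hx : tp 0 h = some x) :
    scan.next ⟨q, fun _ => h, tp⟩ = some ⟨eff q x, fun _ => h + 1, tp⟩ := by
  refine next_eq scan _ _ ?_
  change (tp 0 h).map _ = _
  rw [hx]
  rfl

/-- The state of `scan` after `t` steps. -/
def st (w : List Sym) (t : ℕ) : Bool × Bool × Bool := (w.take t).foldl eff (false, false, false)

theorem scan_after (w : List Sym) : ∀ t ≤ w.length, scan.after w t =
    ⟨st w t, fun _ => (t : ℤ), (scan.init w).tape⟩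
  | 0, _ => rfl
  | t + 1, ht => by
    have h1 := scan_after w t (by omega)
    have h2 : scan.after w (t + 1) = (scan.next (scan.after w t)).getD (scan.after w t) := rfl
    rw [h2, h1]
    have h3 : (scan.init w).tape 0 (t : ℤ) = some w[t] := by
      change (if (0 : Fin 1) = 0 ∧ 0 ≤ (t : ℤ) then
        ((w[(t : ℤ).toNat]?).map some).getD none else none) = some w[t]
      rw [if_pos ⟨rfl, by omega⟩]
      simp [List.getElem?_eq_getElem (show t < w.length by omega)]
    have h4 : st w (t + 1) = eff (st w t) w[t] := by
      unfold st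
      rw [List.take_succ_eq_append_getElem (by omega), List.foldl_append]
      rfl
    rw [scan_next _ _ _ _ h3, h4]
    rfl

theorem scan_stopped (w : List Sym) : scan.Stopped w w.length := by
  unfold TM.Stopped
  rw [scan_after w _ le_rfl]
  have h3 : (scan.init w).tape 0 (w.length : ℤ) = none := by
    change (if (0 : Fin 1) = 0 ∧ 0 ≤ (w.length : ℤ) then
      ((w[(w.length : ℤ).toNat]?).map some).getD none else none) = none
    rw [if_pos ⟨rfl, by omega⟩]
    simp
  have h4 : scan.step (st w w.length) (fun i => (scan.init w).tape i w.length) = none := by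
    change ((scan.init w).tape 0 (w.length : ℤ)).map _ = none
    rw [h3]
    rfl
  unfold TM.next
  change (scan.step (st w w.length) (fun i => (scan.init w).tape i w.length)).map _ = none
  rw [h4]
  rfl

theorem foldl_first (l : List Sym) : (∀ x ∈ l, x ≠ Sym.sep) → ∀ a b : Bool,
    l.foldl eff (false, a, b) = (false, a || decide (Sym.one ∈ l), b) := by
  induction l with
  | nil => simp
  | cons x l ih =>
    intro hl a b
    have h1 := ih (fun y hy => hl y (List.mem_cons_of_mem _ hy))
    rw [List.foldl_cons]
    cases x
    · change l.foldl eff (false, a, b) = _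
      rw [h1]
      simp
    · change l.foldl eff (false, (a || !false), (b || false)) = _
      rw [h1]
      simp
    · exact (hl Sym.sep (List.mem_cons_self) rfl).elim

theorem foldl_second (l : List Sym) : (∀ x ∈ l, x ≠ Sym.sep) → ∀ a b : Bool,
    l.foldl eff (true, a, b) = (true, a, b || decide (Sym.one ∈ l)) := by
  induction l with
  | nil => simp
  | cons x l ih =>
    intro hl a b
    have h1 := ih (fun y hy => hl y (List.mem_cons_of_mem _ hy))
    rw [List.foldl_cons]
    cases x
    · change l.foldl eff (true, a, b) = _
      rw [h1]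
      simp
    · change l.foldl eff (true, (a || !true), (b || true)) = _
      rw [h1]
      simp
    · exact (hl Sym.sep (List.mem_cons_self) rfl).elim

theorem sep_table {n : ℕ} (A : Member phiJ n) : ∀ x ∈ table A, x ≠ Sym.sep := by
  intro x hx
  unfold table at hx
  rw [List.mem_ofFn] at hx
  obtain ⟨i, rfl⟩ := hx
  split <;> simp

theorem one_table {n : ℕ} (A : Member phiJ n) :
    Sym.one ∈ table A ↔ ∃ i, A.1.RelMap Rel.P ![i] := by
  unfold table
  rw [List.mem_ofFn]
  constructor
  · rintro ⟨i, hi⟩
    refine ⟨i, ?_⟩
    by_contra h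
    rw [if_neg h] at hi
    exact absurd hi (by decide)
  · rintro ⟨i, hi⟩
    refine ⟨i, ?_⟩
    rw [if_pos hi]

theorem scan_test : IsTest phiJ scan := by
  intro n A B
  refine ⟨_, scan_stopped _, ?_⟩
  rw [scan_after _ _ le_rfl]
  have h1 : st (code A B) (code A B).length =
      (true, decide (Sym.one ∈ table A), decide (Sym.one ∈ table B)) := by
    unfold st
    rw [List.take_length]
    unfold code
    rw [List.foldl_append, foldl_first _ (sep_table A), List.foldl_cons]
    change (table B).foldl eff (true, _, _) = _
    rw [foldl_second _ (sep_table B)]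
    simp
  change ((st (code A B) (code A B).length).2.1 == (st (code A B) (code A B).length).2.2) = true ↔ _
  rw [h1, iso_iff_J, ← one_table, ← one_table]
  simp

/-- **Theorem.** The class `J` has at most twice as many isomorphism types of each size as the class
`K`, but some isomorphism testing algorithm `α` for `K` is so fast that no function `p` of its
running time bounds the running time of any isomorphism testing algorithm `β` for `J`. -/
theorem result :
    (∀ n, numTypes phiJ n ≤ 2 * numTypes phiK n) ∧
    (∃ β : TM, IsTest phiJ β) ∧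
    ∃ α : TM, IsTest phiK α ∧ (∀ n, worst phiK α n = 0) ∧
      ∀ β : TM, IsTest phiJ β → (∀ n, 2 * n ≤ worst phiJ β n) ∧
        ∀ p : ℕ → ℕ, ∀ᶠ n in Filter.atTop, p (worst phiK α n) < worst phiJ β n := by
  refine ⟨fun n => ?_, ⟨scan, scan_test⟩, yes, yes_test, yes_worst, fun β hβ => ⟨lower hβ,
    fun p => ?_⟩⟩
  · have h1 := numTypes_J n
    have h2 := numTypes_K n
    omega
  · filter_upwards [Filter.eventually_gt_atTop (p 0)] with n hn
    have := lower hβ n
    rw [yes_worst]
    omega

end Pool.Agent.Results.MP_28ce77_lc.FewTypesNoBound
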